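import Pool.Agent.Work.MP_6d9ff5_nt.Fin

namespace Pool.Agent.Results.MP_6d9ff5_nt.AlmostFactorial

theorem result (ε : ℝ) (hε : 0 < ε) : ∃ n₀ : ℕ, ∀ n ≥ n₀, ∃ y D : ℕ, Squarefree y ∧
    ArithmeticFunction.sigma 1 y * D = n.factorial ∧ (D : ℝ) ≤ (n.factorial : ℝ) ^ ε ∧
    (D.primeFactors.card : ℝ) ≤ ε * Nat.primeCounting n :=
  Pool.Agent.Work.MP_6d9ff5_nt.main ε hε

end Pool.Agent.Results.MP_6d9ff5_nt.AlmostFactorial
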